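import Pool.Agent.H85.BC.Basic

/-!
# MP_0e7a83_an, board bcg: row QB

The diagonal subalgebra of an isomorphism of complementary corners has a finite quasi-basis.
-/

set_option autoImplicit false

open Pool.Agent.H85.BC

namespace Pool.Agent.H74.BC

variable {H : Type} [NormedAddCommGroup H] [InnerProductSpace ℂ H] [CompleteSpace H]

/-- the inverse of an isomorphism of corners -/
theorem exists_inv {N : VonNeumannAlgebra H} {p q : H →L[ℂ] H} (hp : IsStarProjection p)
    (hq : IsStarProjection q) {θ : (H →L[ℂ] H) → (H →L[ℂ] H)} (h : CornerIso N p q θ) :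
    ∃ ψ : (H →L[ℂ] H) → (H →L[ℂ] H),
      (∀ y ∈ corner N q, ψ y ∈ corner N p ∧ θ (ψ y) = y) ∧ ψ 0 = 0 ∧
        ∀ y ∈ corner N q, ψ (star y) = star (ψ y) := by
  choose! f hf using h.surj
  have h0 : (0 : H →L[ℂ] H) ∈ corner N q := ⟨zero_mem N, by simp⟩
  refine ⟨f, hf, h.map_eq_zero (hf 0 h0).1 (hf 0 h0).2, fun y hy => ?_⟩
  have hs := corner_star hq hy
  refine h.inj _ (hf _ hs).1 _ (corner_star hp (hf y hy).1) ?_
  rw [(hf _ hs).2, h.star _ (hf y hy).1, (hf y hy).2]

theorem pf_QB (hCOV : T_COV H) : T_QB H := by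
  classical
  intro N ξ hN p hpN hp hp0 hp1 θ hθ
  set q : H →L[ℂ] H := 1 - p with hqdef
  have hqN : q ∈ N := sub_mem (one_mem N) hpN
  have hq : IsStarProjection q := hp.one_sub
  have hpp : p * p = p := hp.isIdempotentElem.eq
  have hqq : q * q = q := hq.isIdempotentElem.eq
  have hpq : p * q = 0 := by rw [hqdef, mul_sub, mul_one, hpp, sub_self]
  have hqp : q * p = 0 := by rw [hqdef, sub_mul, one_mul, hpp, sub_self]
  have hps : star p = p := hp.isSelfAdjoint.star_eq
  have hqs : star q = q := hq.isSelfAdjoint.star_eq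
  have hsum : p + q = 1 := by rw [hqdef]; abel
  have hq0 : q ≠ 0 := fun h => hp1 (sub_eq_zero.1 (hqdef ▸ h)).symm
  obtain ⟨ψ, hψ, hψ0, hψs⟩ := exists_inv hp hq hθ
  obtain ⟨n1, c, hc, hcs⟩ := hCOV N ξ hN p hpN hp hp0 1 (one_mem N) (IsStarProjection.one _)
  obtain ⟨n2, d, hd, hds⟩ := hCOV N ξ hN q hqN hq hq0 1 (one_mem N) (IsStarProjection.one _)
  let z : (H →L[ℂ] H) → (H →L[ℂ] H) := fun y => (1 / 2 : ℂ) • (p * y * p + ψ (q * y * q))
  have hzdef : ∀ y, z y = (1 / 2 : ℂ) • (p * y * p + ψ (q * y * q)) := fun y => rfl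
  have hz : ∀ y ∈ N, z y ∈ corner N p := fun y hy =>
    corner_smul _ (corner_add (corner_mk hpN hp hy) (hψ _ (corner_mk hqN hq hy)).1)
  let E : (H →L[ℂ] H) → (H →L[ℂ] H) := fun y => z y + θ (z y)
  have hEdef : ∀ y, E y = z y + θ (z y) := fun y => rfl
  have hEs : ∀ y ∈ N, E (star y) = star (E y) := by
    intro y hy
    have h1 : z (star y) = star (z y) := by
      have h2 : q * star y * q = star (q * y * q) := by
        rw [star_mul, star_mul, hqs, mul_assoc]
      have h3 : p * star y * p = star (p * y * p) := by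
        rw [star_mul, star_mul, hps, mul_assoc]
      rw [hzdef, hzdef, h2, h3, hψs _ (corner_mk hqN hq hy), star_smul, star_add]
      congr 1
      simp
    rw [hEdef, hEdef, h1, hθ.star _ (hz y hy), star_add]
  have hEp : ∀ a x : H →L[ℂ] H, a ∈ N → x ∈ N → a * p = a →
      a * E (star a * x) = (1 / 2 : ℂ) • (a * star a * (x * p)) := by
    intro a x ha hx hap
    have h1 : p * star a = star a := by
      have := congrArg star hap
      rwa [star_mul, hps] at this
    have h2 : q * star a = 0 := by rw [← h1, ← mul_assoc, hqp, zero_mul]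
    have h3 : z (star a * x) = (1 / 2 : ℂ) • (star a * x * p) := by
      rw [hzdef, ← mul_assoc q, h2, zero_mul, zero_mul, hψ0, add_zero, ← mul_assoc p, h1]
    have h4 : a * θ (z (star a * x)) = 0 := by
      have h5 := corner_left hq (hθ.maps _ (hz _ (mul_mem (star_mem ha) hx)))
      rw [← h5, ← mul_assoc]
      have h6 : a * q = 0 := by rw [← hap, mul_assoc, hpq, mul_zero]
      rw [h6, zero_mul]
    rw [hEdef, mul_add, h4, add_zero, h3, mul_smul_comm]
    simp only [mul_assoc]
  have hEq : ∀ a x : H →L[ℂ] H, a ∈ N → x ∈ N → a * q = a →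
      a * E (star a * x) = (1 / 2 : ℂ) • (a * star a * (x * q)) := by
    intro a x ha hx haq
    have h1 : q * star a = star a := by
      have := congrArg star haq
      rwa [star_mul, hqs] at this
    have h2 : p * star a = 0 := by rw [← h1, ← mul_assoc, hpq, zero_mul]
    have h3 : z (star a * x) = (1 / 2 : ℂ) • ψ (star a * x * q) := by
      rw [hzdef, ← mul_assoc p, h2, zero_mul, zero_mul, zero_add, ← mul_assoc q, h1]
    have hmc : star a * x * q ∈ corner N q := by
      have := corner_mk hqN hq (mul_mem (star_mem ha) hx)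
      rwa [← mul_assoc, h1] at this
    have h4 : a * z (star a * x) = 0 := by
      have h5 := corner_left hp (hz _ (mul_mem (star_mem ha) hx))
      rw [← h5, ← mul_assoc]
      have h6 : a * p = 0 := by rw [← haq, mul_assoc, hqp, mul_zero]
      rw [h6, zero_mul]
    rw [hEdef, mul_add, h4, zero_add, h3, hθ.smul _ _ (hψ _ hmc).1, (hψ _ hmc).2,
      mul_smul_comm]
    simp only [mul_assoc]
  let ι : Type := Fin 2 × (Fin n1 ⊕ Fin n2)
  let e : Fin (Fintype.card ι) ≃ ι := (Fintype.equivFin ι).symm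
  let m' : ι → (H →L[ℂ] H) := fun i => Sum.elim c d i.2
  have hm' : ∀ i, m' i ∈ N := by
    rintro ⟨s, i | i⟩
    · exact (hc i).1
    · exact (hd i).1
  have hleft : ∀ x ∈ N, x = ∑ j, m' (e j) * E (star (m' (e j)) * x) := by
    intro x hx
    rw [Equiv.sum_comp e (fun i => m' i * E (star (m' i) * x)), Fintype.sum_prod_type]
    simp only [m', Fintype.sum_sum_type, Sum.elim_inl, Sum.elim_inr]
    have h1 : ∑ i, c i * E (star (c i) * x) = (1 / 2 : ℂ) • (x * p) := by
      rw [Finset.sum_congr rfl (fun i _ => hEp (c i) x (hc i).1 hx (hc i).2.1),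
        ← Finset.smul_sum, ← Finset.sum_mul, hcs, one_mul]
    have h2 : ∑ i, d i * E (star (d i) * x) = (1 / 2 : ℂ) • (x * q) := by
      rw [Finset.sum_congr rfl (fun i _ => hEq (d i) x (hd i).1 hx (hd i).2.1),
        ← Finset.smul_sum, ← Finset.sum_mul, hds, one_mul]
    rw [h1, h2, ← smul_add, ← mul_add, hsum, mul_one, Fin.sum_univ_two, ← add_smul]
    norm_num
  refine ⟨E, Fintype.card ι, fun j => m' (e j), ?_, ?_, ?_, ?_, ?_, ?_⟩
  · rintro y ⟨x, hx, rfl⟩
    exact add_mem hx.1 (hθ.maps x hx).1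
  · rintro y ⟨x, hx, rfl⟩
    exact ⟨star x, corner_star hp hx, by rw [star_add, hθ.star x hx]⟩
  · intro j
    exact hm' _
  · intro x hx
    exact ⟨z x, hz x hx, rfl⟩
  · exact hleft
  · intro x hx
    have h1 := congrArg star (hleft (star x) (star_mem hx))
    rw [star_star, star_sum] at h1
    refine h1.trans (Finset.sum_congr rfl fun j _ => ?_)
    have h2 : star (m' (e j)) * star x = star (x * m' (e j)) := by rw [star_mul]
    rw [star_mul, h2, hEs _ (mul_mem hx (hm' _)), star_star]

end Pool.Agent.H74.BC
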